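import Mathlib
import Pool.Agent.H469R2.NK.KL
import Pool.Agent.H767R2.Weyl
import Pool.Agent.W699.TLKat

set_option autoImplicit false

/-! # Exponential sums of polynomials over sets of multiplicative nature -/

namespace Pool.Agent.T9h85.SG

open Finset Filter
open Pool.Agent.H469R2.NK (e norm_e e_add e_zero conj_e)
open Pool.Agent.W208.TL (KF)

theorem ee_eq' (t : ℝ) : Pool.Agent.H767R2.ee t = e t := by
  unfold Pool.Agent.H767R2.ee Pool.Agent.H469R2.NK.e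
  congr 1
  push_cast
  ring

/-- Weyl sums over initial segments -/
theorem weyl_int {Q : Polynomial ℤ} (hQ : 1 ≤ Q.natDegree) {θ : ℝ} (hθ : Irrational θ) {ε : ℝ}
    (hε : 0 < ε) : ∀ᶠ M : ℕ in atTop,
      ‖∑ n ∈ Ioc 0 M, e (θ * ((Q.eval (n : ℤ) : ℤ) : ℝ))‖ ≤ ε * M := by
  set β : Polynomial ℝ := Polynomial.C θ * Q.map (Int.castRingHom ℝ) with hβ
  have hval : ∀ n : ℕ, β.eval (n : ℝ) = θ * ((Q.eval (n : ℤ) : ℤ) : ℝ) := by
    intro n
    rw [hβ, Polynomial.eval_mul, Polynomial.eval_C]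
    congr 1
    have h2 := Polynomial.eval_intCast_map (Int.castRingHom ℝ) Q (n : ℤ)
    simp
  have hirr : ∃ i, 1 ≤ i ∧ Irrational (β.coeff i) := by
    refine ⟨Q.natDegree, hQ, ?_⟩
    rw [hβ, Polynomial.coeff_C_mul, Polynomial.coeff_map]
    have h1 : Q.coeff Q.natDegree ≠ 0 := by
      rw [Polynomial.coeff_natDegree, Polynomial.leadingCoeff_ne_zero]
      rintro rfl
      simp at hQ
    simpa using hθ.mul_intCast h1
  have h1 := Pool.Agent.H767R2.weyl_poly β hirr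
  rw [Pool.Agent.H767R2.tendsto_cav_iff] at h1
  have h2 := (h1.eventually (gt_mem_nhds (show (0 : ℝ) < ε / 4 by positivity)))
  obtain ⟨M₀, hM₀⟩ := eventually_atTop.1 h2
  obtain ⟨M₁, hM₁⟩ := exists_nat_ge (2 / ε)
  filter_upwards [eventually_ge_atTop (max (max M₀ 1) M₁)] with M hM
  have hM0 : M₀ ≤ M := (le_max_left _ _).trans ((le_max_left _ _).trans hM)
  have hM1 : 1 ≤ M := (le_max_right _ _).trans ((le_max_left _ _).trans hM)
  have hM2 : 2 / ε ≤ M := hM₁.trans (by exact_mod_cast (le_max_right _ _).trans hM)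
  have hMr : (1 : ℝ) ≤ M := by exact_mod_cast hM1
  have h3 := hM₀ (M + 1) (by omega)
  have hK0 : (0 : ℝ) < ((M + 1 : ℕ) : ℝ) := by positivity
  rw [div_lt_iff₀ hK0] at h3
  have e1 : ∑ n ∈ range (M + 1), e (θ * ((Q.eval (n : ℤ) : ℤ) : ℝ)) =
      ∑ n ∈ range (M + 1), Pool.Agent.H767R2.ee (β.eval (n : ℝ)) :=
    sum_congr rfl fun n _ => by rw [ee_eq', hval]
  rw [← e1] at h3
  have e2 : ∑ n ∈ Ioc 0 M, e (θ * ((Q.eval (n : ℤ) : ℤ) : ℝ)) =
      ∑ n ∈ range (M + 1), e (θ * ((Q.eval (n : ℤ) : ℤ) : ℝ)) -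
        e (θ * ((Q.eval ((0 : ℕ) : ℤ) : ℤ) : ℝ)) := by
    rw [eq_sub_iff_add_eq, add_comm]
    have : range (M + 1) = insert 0 (Ioc 0 M) := by
      ext x
      simp only [mem_range, mem_insert, mem_Ioc]
      omega
    rw [this, sum_insert (by simp)]
  rw [e2]
  refine (norm_sub_le _ _).trans ?_
  rw [norm_e]
  rw [div_le_iff₀ hε] at hM2
  push_cast at h3
  nlinarith

/-- the correlations of the dilated phases -/
theorem corr {Q : Polynomial ℤ} (hQ : 1 ≤ Q.natDegree) {θ : ℝ} (hθ : Irrational θ) {p q : ℕ}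
    (hpq : p ≠ q) {ε : ℝ} (hε : 0 < ε) : ∀ᶠ M : ℕ in atTop,
      ‖∑ m ∈ Ioc 0 M, e (θ * ((Q.eval ((p * m : ℕ) : ℤ) : ℤ) : ℝ)) *
        star (e (θ * ((Q.eval ((q * m : ℕ) : ℤ) : ℤ) : ℝ)))‖ ≤ ε * M := by
  set R : Polynomial ℤ := Q.comp (Polynomial.C (p : ℤ) * Polynomial.X) -
    Q.comp (Polynomial.C (q : ℤ) * Polynomial.X) with hR
  have hcoeff : ∀ i, R.coeff i = Q.coeff i * ((p : ℤ) ^ i - (q : ℤ) ^ i) := by
    intro i
    rw [hR, Polynomial.coeff_sub, Polynomial.comp_C_mul_X_coeff, Polynomial.comp_C_mul_X_coeff]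
    ring
  have hdeg : 1 ≤ R.natDegree := by
    refine hQ.trans (Polynomial.le_natDegree_of_ne_zero ?_)
    rw [hcoeff]
    refine mul_ne_zero ?_ ?_
    · rw [Polynomial.coeff_natDegree, Polynomial.leadingCoeff_ne_zero]
      rintro rfl
      simp at hQ
    · rw [sub_ne_zero]
      intro h
      have h1 : (p : ℤ) ^ Q.natDegree = (q : ℤ) ^ Q.natDegree := h
      have h2 : p ^ Q.natDegree = q ^ Q.natDegree := by exact_mod_cast h1
      exact hpq (Nat.pow_left_injective (show Q.natDegree ≠ 0 by omega) h2)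
  filter_upwards [weyl_int hdeg hθ hε] with M hM
  refine le_trans (le_of_eq ?_) hM
  congr 1
  refine sum_congr rfl fun m _ => ?_
  have h1 : star (e (θ * ((Q.eval ((q * m : ℕ) : ℤ) : ℤ) : ℝ))) =
      e (-(θ * ((Q.eval ((q * m : ℕ) : ℤ) : ℤ) : ℝ))) := conj_e _
  rw [h1, ← e_add]
  congr 1
  have h2 : R.eval (m : ℤ) = Q.eval ((p * m : ℕ) : ℤ) - Q.eval ((q * m : ℕ) : ℤ) := by
    rw [hR, Polynomial.eval_sub, Polynomial.eval_comp, Polynomial.eval_comp]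
    simp
  rw [h2]
  push_cast
  ring

/-- **Katai functions do not correlate with polynomial phases** -/
theorem kat_poly {Q : Polynomial ℤ} (hQ : 1 ≤ Q.natDegree) {θ : ℝ} (hθ : Irrational θ) {ε : ℝ}
    (hε : 0 < ε) : ∀ᶠ N : ℕ in atTop, ∀ f : ℕ → ℂ, KF f →
      ‖∑ n ∈ Ioc 0 N, f n * e (θ * ((Q.eval (n : ℤ) : ℤ) : ℝ))‖ ≤ ε * N := by
  obtain ⟨P, hP, δ, hδ, hδ1, N₀, h⟩ := Pool.Agent.W699.TLKat.kat ε 1 hε
  have h1 : ∀ᶠ M : ℕ in atTop, ∀ pq ∈ P ×ˢ P, pq.1 ≠ pq.2 →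
      ‖∑ m ∈ Ioc 0 M, e (θ * ((Q.eval ((pq.1 * m : ℕ) : ℤ) : ℤ) : ℝ)) *
        star (e (θ * ((Q.eval ((pq.2 * m : ℕ) : ℤ) : ℤ) : ℝ)))‖ ≤ δ * M := by
    rw [Filter.eventually_all_finset]
    intro pq _
    by_cases hne : pq.1 = pq.2
    · exact Eventually.of_forall fun M hM => absurd hne hM
    · filter_upwards [corr hQ hθ hne hδ] with M hM _
      exact hM
  obtain ⟨M₀, hM₀⟩ := eventually_atTop.1 h1
  obtain ⟨N₁, hN₁⟩ := exists_nat_ge (M₀ / δ)
  filter_upwards [eventually_ge_atTop (max N₀ N₁)] with N hN f hf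
  refine h N ((le_max_left _ _).trans hN) (fun n => e (θ * ((Q.eval (n : ℤ) : ℤ) : ℝ)))
    (fun n => (norm_e _).le) (fun p hp q hq hpq M hM hMN => ?_) f hf
  have h2 : (N₁ : ℝ) ≤ N := by exact_mod_cast (le_max_right _ _).trans hN
  have h3 := hN₁.trans h2
  rw [div_le_iff₀ hδ] at h3
  have h4 : M₀ ≤ M := by
    have : (M₀ : ℝ) ≤ M := by linarith
    exact_mod_cast this
  refine (hM₀ M h4 (p, q) (mem_product.2 ⟨hp, hq⟩) hpq).trans ?_
  have : (M : ℝ) ≤ N := by exact_mod_cast hMN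
  gcongr

open Classical in
/-- the indicator function -/
noncomputable def ind (S : Set ℕ) (n : ℕ) : ℂ := if n ∈ S then 1 else 0

/-- On average the indicator function of `S` is a linear combination of Katai functions up to small errors. -/
def Structured (S : Set ℕ) : Prop :=
  ∀ ε : ℝ, 0 < ε → ∃ (ι : Type) (_ : Fintype ι) (c : ι → ℂ) (f : ι → ℕ → ℂ), (∀ i, KF (f i)) ∧
    ∀ᶠ N : ℕ in atTop, ∑ n ∈ Ioc 0 N, ‖ind S n - ∑ i, c i * f i n‖ ≤ ε * N

open Classical in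
/-- the members of `S` up to `N` -/
noncomputable def seg (S : Set ℕ) (N : ℕ) : Finset ℕ := (Ioc 0 N).filter fun n => n ∈ S

theorem mem_seg {S : Set ℕ} {N n : ℕ} : n ∈ seg S N ↔ (0 < n ∧ n ≤ N) ∧ n ∈ S := by
  classical
  simp only [seg, mem_filter, mem_Ioc]

/-- **exponential sums of polynomials over structured sets** -/
theorem small_structured {Q : Polynomial ℤ} (hQ : 1 ≤ Q.natDegree) {θ : ℝ} (hθ : Irrational θ)
    {S : Set ℕ} (hS : Structured S) {κ : ℝ} (hκ : 0 < κ)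
    (hd : ∀ᶠ N : ℕ in atTop, κ * N ≤ ((seg S N).card : ℝ)) {ε : ℝ} (hε : 0 < ε) :
    ∀ᶠ N : ℕ in atTop, ‖∑ n ∈ seg S N, e (θ * ((Q.eval (n : ℤ) : ℤ) : ℝ))‖ ≤
      ε * (seg S N).card := by
  classical
  obtain ⟨ι, _, c, f, hf, hN⟩ := hS (ε * κ / 2) (by positivity)
  set C : ℝ := ∑ i, ‖c i‖ with hC
  have hC0 : 0 ≤ C := sum_nonneg fun i _ => norm_nonneg _
  set η : ℝ := ε * κ / (2 * (C + 1)) with hη
  have hη0 : 0 < η := by positivity
  filter_upwards [hN, hd, kat_poly hQ hθ hη0] with N h1 h2 h3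
  set F : ℕ → ℂ := fun n => e (θ * ((Q.eval (n : ℤ) : ℤ) : ℝ)) with hF
  have e1 : ∑ n ∈ seg S N, F n = ∑ n ∈ Ioc 0 N, ind S n * F n := by
    unfold seg ind
    rw [sum_filter]
    refine sum_congr rfl fun n _ => ?_
    split_ifs <;> simp
  have e2 : ∑ n ∈ Ioc 0 N, ind S n * F n =
      ∑ n ∈ Ioc 0 N, (ind S n - ∑ i, c i * f i n) * F n +
        ∑ i, c i * ∑ n ∈ Ioc 0 N, f i n * F n := by
    have : ∑ i, c i * ∑ n ∈ Ioc 0 N, f i n * F n = ∑ n ∈ Ioc 0 N, (∑ i, c i * f i n) * F n := by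
      simp only [mul_sum, sum_mul]
      rw [sum_comm]
      refine sum_congr rfl fun n _ => sum_congr rfl fun i _ => ?_
      ring
    rw [this, ← sum_add_distrib]
    refine sum_congr rfl fun n _ => ?_
    ring
  change ‖∑ n ∈ seg S N, F n‖ ≤ _
  rw [e1, e2]
  have h4 : ‖∑ n ∈ Ioc 0 N, (ind S n - ∑ i, c i * f i n) * F n‖ ≤ ε * κ / 2 * N := by
    refine (norm_sum_le _ _).trans (le_trans (le_of_eq ?_) h1)
    refine sum_congr rfl fun n _ => ?_
    rw [norm_mul, hF]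
    simp only
    rw [norm_e, mul_one]
  have h5 : ‖∑ i, c i * ∑ n ∈ Ioc 0 N, f i n * F n‖ ≤ C * (η * N) := by
    refine (norm_sum_le _ _).trans ?_
    rw [hC, sum_mul]
    refine sum_le_sum fun i _ => ?_
    rw [norm_mul]
    exact mul_le_mul_of_nonneg_left (h3 (f i) (hf i)) (norm_nonneg _)
  have h6 : C * (η * N) ≤ ε * κ / 2 * N := by
    have h7 : C * η ≤ ε * κ / 2 := by
      rw [hη]
      have : C * (ε * κ / (2 * (C + 1))) = (ε * κ / 2) * (C / (C + 1)) := by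
        field_simp
      rw [this]
      have h8 : C / (C + 1) ≤ 1 := by
        rw [div_le_one (by positivity)]
        linarith
      calc ε * κ / 2 * (C / (C + 1)) ≤ ε * κ / 2 * 1 := by gcongr
        _ = ε * κ / 2 := mul_one _
    calc C * (η * N) = C * η * N := by ring
      _ ≤ ε * κ / 2 * N := by gcongr
  calc _ ≤ ε * κ / 2 * N + ε * κ / 2 * N := (norm_add_le _ _).trans (by linarith)
    _ = ε * (κ * N) := by ring
    _ ≤ ε * (seg S N).card := by gcongr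

end Pool.Agent.T9h85.SG
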