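import Mathlib
import Pool.Agent.T9h85.SG.Kat

set_option autoImplicit false

/-! # Examples of structured sets -/

namespace Pool.Agent.T9h85.SG

open Finset Filter
open Pool.Agent.W208.TL (KF)

theorem kf_one : KF (fun _ => 1) :=
  ⟨fun _ => by simp, fun _ => 1, fun _ => 1, fun _ => by simp, fun _ => by simp, fun _ _ _ _ => by simp⟩

theorem kf_mul {f g : ℕ → ℂ} (hf : KF f) (hg : KF g) : KF (fun n => f n * g n) := by
  obtain ⟨h1, c, f', h2, h3, h4⟩ := hf
  obtain ⟨h5, d, g', h6, h7, h8⟩ := hg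
  have key : ∀ a b : ℂ, ‖a‖ ≤ 1 → ‖b‖ ≤ 1 → ‖a * b‖ ≤ 1 := by
    intro a b ha hb
    rw [norm_mul]
    exact mul_le_one₀ ha (norm_nonneg _) hb
  refine ⟨fun n => key _ _ (h1 n) (h5 n), fun n => c n * d n, fun n => f' n * g' n,
    fun n => key _ _ (h2 n) (h6 n), fun n => key _ _ (h3 n) (h7 n), fun p n hp hn => ?_⟩
  simp only
  rw [h4 p n hp hn, h8 p n hp hn]
  ring

theorem ind_congr {S T : Set ℕ} {m n : ℕ} (h : m ∈ S ↔ n ∈ T) : ind S m = ind T n := by
  unfold ind
  by_cases h1 : m ∈ S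
  · rw [if_pos h1, if_pos (h.1 h1)]
  · rw [if_neg h1, if_neg (fun h2 => h1 (h.2 h2))]

theorem norm_ind_le (S : Set ℕ) (n : ℕ) : ‖ind S n‖ ≤ 1 := by
  classical
  unfold ind
  split_ifs <;> simp

/-- a Katai indicator function -/
theorem Structured.of_kf {S : Set ℕ} (h : KF (ind S)) : Structured S := by
  intro ε hε
  refine ⟨Unit, inferInstance, fun _ => 1, fun _ => ind S, fun _ => h, Eventually.of_forall fun N => ?_⟩
  simp
  positivity

/-- sets given by the number of the prime factors, in the widest sense -/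
theorem Structured.of_level {g : ℕ → ℕ} (hg : ∀ p n : ℕ, p.Prime → ¬ p ∣ n → g (p * n) = g n + 1)
    (T : Set ℕ) : Structured {n | g n ∈ T} := by
  classical
  apply Structured.of_kf
  refine ⟨norm_ind_le _, fun _ => 1, fun n => ind T (g n + 1), fun _ => by simp,
    fun n => norm_ind_le _ _, fun p n hp hn => ?_⟩
  rw [one_mul]
  apply ind_congr
  simp only [Set.mem_ofPred_eq]
  rw [hg p n hp hn]

theorem Structured.compl {S : Set ℕ} (h : Structured S) : Structured Sᶜ := by
  classical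
  intro ε hε
  obtain ⟨ι, _, c, f, hf, hN⟩ := h ε hε
  refine ⟨Option ι, inferInstance, fun o => o.elim 1 (fun i => -c i),
    fun o => o.elim (fun _ => 1) f, ?_, ?_⟩
  · rintro (_ | i)
    · exact kf_one
    · exact hf i
  · filter_upwards [hN] with N h1
    refine le_trans (le_of_eq ?_) h1
    refine sum_congr rfl fun n _ => ?_
    rw [← norm_neg]
    congr 1
    rw [Fintype.sum_option]
    simp only [Option.elim, mul_one, neg_mul, sum_neg_distrib]
    have : ind Sᶜ n = 1 - ind S n := by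
      unfold ind
      by_cases hn : n ∈ S
      · simp [hn]
      · simp [hn]
    rw [this]
    ring

theorem Structured.inter {S T : Set ℕ} (hS : Structured S) (hT : Structured T) :
    Structured (S ∩ T) := by
  classical
  intro ε hε
  obtain ⟨κ, _, d, g, hg, hN'⟩ := hT (ε / 2) (by positivity)
  set C : ℝ := ∑ i, ‖d i‖ with hC
  have hC0 : 0 ≤ C := sum_nonneg fun i _ => norm_nonneg _
  obtain ⟨ι, _, c, f, hf, hN⟩ := hS (ε / (2 * (C + 1))) (by positivity)
  refine ⟨ι × κ, inferInstance, fun x => c x.1 * d x.2, fun x n => f x.1 n * g x.2 n,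
    fun x => kf_mul (hf x.1) (hg x.2), ?_⟩
  filter_upwards [hN, hN'] with N h1 h2
  have key : ∀ n, ‖ind (S ∩ T) n - ∑ x : ι × κ, c x.1 * d x.2 * (f x.1 n * g x.2 n)‖ ≤
      ‖ind T n - ∑ j, d j * g j n‖ + C * ‖ind S n - ∑ i, c i * f i n‖ := by
    intro n
    have e1 : ∑ x : ι × κ, c x.1 * d x.2 * (f x.1 n * g x.2 n) =
        (∑ i, c i * f i n) * ∑ j, d j * g j n := by
      rw [sum_mul_sum, Fintype.sum_prod_type]
      refine sum_congr rfl fun i _ => sum_congr rfl fun j _ => ?_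
      ring
    have e2 : ind (S ∩ T) n = ind S n * ind T n := by
      unfold ind
      by_cases h3 : n ∈ S <;> by_cases h4 : n ∈ T <;> simp [h3, h4]
    have e3 : ind (S ∩ T) n - (∑ i, c i * f i n) * ∑ j, d j * g j n =
        ind S n * (ind T n - ∑ j, d j * g j n) + (∑ j, d j * g j n) * (ind S n - ∑ i, c i * f i n) := by
      rw [e2]
      ring
    rw [e1, e3]
    refine (norm_add_le _ _).trans ?_
    rw [norm_mul, norm_mul]
    have h5 : ‖∑ j, d j * g j n‖ ≤ C := by
      refine (norm_sum_le _ _).trans (sum_le_sum fun j _ => ?_)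
      rw [norm_mul]
      exact mul_le_of_le_one_right (norm_nonneg _) ((hg j).1 n)
    have h6 := norm_ind_le S n
    gcongr
    exact mul_le_of_le_one_left (norm_nonneg _) h6
  refine (sum_le_sum fun n _ => key n).trans ?_
  rw [sum_add_distrib, ← mul_sum]
  have h3 : C * ∑ n ∈ Ioc 0 N, ‖ind S n - ∑ i, c i * f i n‖ ≤ C * (ε / (2 * (C + 1)) * N) := by
    gcongr
  have h4 : C * (ε / (2 * (C + 1)) * N) ≤ ε / 2 * N := by
    have e1 : C * (ε / (2 * (C + 1)) * N) = (C / (C + 1)) * (ε / 2 * N) := by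
      field_simp
    rw [e1]
    have h8 : C / (C + 1) ≤ 1 := by
      rw [div_le_one (by positivity)]
      linarith
    exact mul_le_of_le_one_left (by positivity) h8
  linarith

/-- additive functions with values modulo `k` -/
theorem Structured.of_additive {k : ℕ} [NeZero k] {g : ℕ → ZMod k}
    (hg : ∀ p n : ℕ, p.Prime → ¬ p ∣ n → g (p * n) = g p + g n) (z : ZMod k) :
    Structured {n | g n = z} := by
  classical
  intro ε hε
  refine ⟨ZMod k, inferInstance, fun j => (k : ℂ)⁻¹ * ZMod.stdAddChar (-(j * z)),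
    fun j n => ZMod.stdAddChar (j * g n), fun j => ?_, Eventually.of_forall fun N => ?_⟩
  · have hn : ∀ x : ZMod k, ‖ZMod.stdAddChar x‖ ≤ 1 := fun x => (AddChar.norm_apply _ _).le
    refine ⟨fun n => hn _, fun p => ZMod.stdAddChar (j * g p), fun n => ZMod.stdAddChar (j * g n),
      fun n => hn _, fun n => hn _, fun p n hp hpn => ?_⟩
    simp only
    rw [hg p n hp hpn, mul_add, AddChar.map_add_eq_mul]
  · have key : ∀ n, ind {n | g n = z} n =
        ∑ j : ZMod k, (k : ℂ)⁻¹ * ZMod.stdAddChar (-(j * z)) * ZMod.stdAddChar (j * g n) := by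
      intro n
      have e1 : ∀ j : ZMod k, (k : ℂ)⁻¹ * ZMod.stdAddChar (-(j * z)) * ZMod.stdAddChar (j * g n) =
          (k : ℂ)⁻¹ * ZMod.stdAddChar (j * (g n - z)) := by
        intro j
        rw [mul_assoc, ← AddChar.map_add_eq_mul]
        congr 2
        ring
      simp only [e1]
      rw [← mul_sum, AddChar.sum_mulShift _ (ZMod.isPrimitive_stdAddChar k)]
      unfold ind
      simp only [Set.mem_ofPred_eq, sub_eq_zero, ZMod.card]
      split_ifs with h
      · have : (k : ℂ) ≠ 0 := by exact_mod_cast NeZero.ne k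
        field_simp
      · simp
    simp only [key, sub_self, norm_zero, sum_const_zero]
    positivity

/-- squarefree numbers -/
theorem Structured.squarefree : Structured {n | Squarefree n} := by
  classical
  apply Structured.of_kf
  refine ⟨norm_ind_le _, fun _ => 1, ind {n | Squarefree n}, fun _ => by simp,
    fun n => norm_ind_le _ _, fun p n hp hn => ?_⟩
  have h1 : Squarefree (p * n) ↔ Squarefree n := by
    rw [Nat.squarefree_mul ((Nat.Prime.coprime_iff_not_dvd hp).2 hn)]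
    exact ⟨fun h => h.2, fun h => ⟨hp.squarefree, h⟩⟩
  have h2 : ind {n | Squarefree n} (p * n) = ind {n | Squarefree n} n := ind_congr h1
  rw [h2, one_mul]

/-- multiplicative sets -/
theorem Structured.of_multiplicative {S : Set ℕ}
    (h : ∀ m n : ℕ, m.Coprime n → (m * n ∈ S ↔ m ∈ S ∧ n ∈ S)) : Structured S := by
  classical
  apply Structured.of_kf
  refine ⟨norm_ind_le _, ind S, ind S, fun n => norm_ind_le _ _, fun n => norm_ind_le _ _,
    fun p n hp hn => ?_⟩
  have h1 := h p n ((Nat.Prime.coprime_iff_not_dvd hp).2 hn)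
  unfold ind
  by_cases h2 : p ∈ S
  · by_cases h3 : n ∈ S
    · rw [if_pos (h1.2 ⟨h2, h3⟩), if_pos h2, if_pos h3, one_mul]
    · rw [if_neg (fun h4 => h3 (h1.1 h4).2), if_neg h3, mul_zero]
  · rw [if_neg (fun h4 => h2 (h1.1 h4).1), if_neg h2, zero_mul]

theorem cardFactors_level (p n : ℕ) (hp : p.Prime) (hn : ¬ p ∣ n) :
    ArithmeticFunction.cardFactors (p * n) = ArithmeticFunction.cardFactors n + 1 := by
  have hn0 : n ≠ 0 := by
    rintro rfl
    simp at hn
  rw [ArithmeticFunction.cardFactors_mul hp.ne_zero hn0, ArithmeticFunction.cardFactors_apply_prime hp]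
  ring

theorem cardDistinctFactors_level (p n : ℕ) (hp : p.Prime) (hn : ¬ p ∣ n) :
    ArithmeticFunction.cardDistinctFactors (p * n) = ArithmeticFunction.cardDistinctFactors n + 1 := by
  have hn0 : n ≠ 0 := by
    rintro rfl
    simp at hn
  rw [ArithmeticFunction.cardDistinctFactors_mul ((Nat.Prime.coprime_iff_not_dvd hp).2 hn),
    ArithmeticFunction.cardDistinctFactors_apply_prime hp]
  ring

/-- If `g (2 n) = g n + 1` and `T` has bounded gaps, then `{n | g n ∈ T}` has positive lower density. -/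
theorem density_level {g : ℕ → ℕ} (hg : ∀ n : ℕ, 1 ≤ n → g (2 * n) = g n + 1) {T : Set ℕ} {ℓ : ℕ}
    (hT : ∀ a, ∃ b ∈ T, a ≤ b ∧ b < a + ℓ) : ∃ κ : ℝ, 0 < κ ∧ ∀ᶠ N : ℕ in atTop,
      κ * N ≤ ((seg {n | g n ∈ T} N).card : ℝ) := by
  classical
  have hℓ : 1 ≤ ℓ := by
    obtain ⟨b, -, h1, h2⟩ := hT 0
    omega
  have hpow : ∀ i n, 1 ≤ n → g (2 ^ i * n) = g n + i := by
    intro i n hn
    induction i with
    | zero => simp
    | succ i ih =>
      rw [pow_succ, mul_comm (2 ^ i) 2, mul_assoc, hg _ (Nat.mul_pos (by positivity) hn), ih]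
      ring
  refine ⟨1 / (2 ^ (ℓ + 1) * ℓ), by positivity, ?_⟩
  filter_upwards [eventually_ge_atTop (2 ^ (ℓ + 1))] with N hN
  set M := N / 2 ^ ℓ with hM
  have h1 : (Ioc 0 M) ⊆ (range ℓ).biUnion fun i =>
      (Ioc 0 M).filter fun n => g (2 ^ i * n) ∈ T := by
    intro n hn
    have hn1 : 1 ≤ n := (mem_Ioc.1 hn).1
    obtain ⟨b, hb, h2, h3⟩ := hT (g n)
    refine mem_biUnion.2 ⟨b - g n, mem_range.2 (by omega), mem_filter.2 ⟨hn, ?_⟩⟩
    rw [hpow _ _ hn1, show g n + (b - g n) = b by omega]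
    exact hb
  have h2 : ∀ i ∈ range ℓ, ((Ioc 0 M).filter fun n => g (2 ^ i * n) ∈ T).card ≤
      (seg {n | g n ∈ T} N).card := by
    intro i hi
    have hi' := mem_range.1 hi
    refine card_le_card_of_injOn (fun n => 2 ^ i * n) ?_ ?_
    · intro n hn
      have hn' := mem_filter.1 hn
      have hn1 := mem_Ioc.1 hn'.1
      refine mem_seg.2 ⟨⟨Nat.mul_pos (by positivity) hn1.1, ?_⟩, hn'.2⟩
      calc 2 ^ i * n ≤ 2 ^ ℓ * M := Nat.mul_le_mul (Nat.pow_le_pow_right (by norm_num) hi'.le) hn1.2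
        _ ≤ N := Nat.mul_div_le _ _
    · intro x _ y _ hxy
      exact Nat.eq_of_mul_eq_mul_left (show 0 < 2 ^ i by positivity) hxy
  have h3 : M ≤ ℓ * (seg {n | g n ∈ T} N).card := by
    have h4 := (card_le_card h1).trans card_biUnion_le
    rw [Nat.card_Ioc, Nat.sub_zero] at h4
    refine h4.trans ((sum_le_sum h2).trans ?_)
    rw [sum_const, card_range, smul_eq_mul]
  have h5 : N ≤ 2 * (2 ^ ℓ * M) := by
    have h6 := Nat.div_add_mod N (2 ^ ℓ)
    have h7 := Nat.mod_lt N (show 0 < 2 ^ ℓ by positivity)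
    have h8 : 2 ^ ℓ * 1 ≤ 2 ^ ℓ * M := by
      apply Nat.mul_le_mul_left
      rw [hM, Nat.le_div_iff_mul_le (by positivity), one_mul]
      exact (Nat.pow_le_pow_right (by norm_num) (Nat.le_succ _)).trans hN
    rw [← hM] at h6
    omega
  have h6 : (N : ℝ) ≤ 2 ^ (ℓ + 1) * ℓ * (seg {n | g n ∈ T} N).card := by
    have h7 : N ≤ 2 * (2 ^ ℓ * (ℓ * (seg {n | g n ∈ T} N).card)) :=
      h5.trans (Nat.mul_le_mul_left _ (Nat.mul_le_mul_left _ h3))
    have h8 : (N : ℝ) ≤ 2 * (2 ^ ℓ * (ℓ * (seg {n | g n ∈ T} N).card)) := by exact_mod_cast h7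
    rw [pow_succ]
    linarith
  rw [one_div, inv_mul_le_iff₀ (by positivity)]
  exact h6

end Pool.Agent.T9h85.SG
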