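import Mathlib
import Pool.Agent.H469R2.NK.KL

set_option autoImplicit false

/-! # Exponential sums over integers with restricted digits (mixed radix) -/

namespace Pool.Agent.T9h85.SG

open Finset Filter
open Pool.Agent.H469R2.NK (e norm_e e_add e_zero sin_ge)

/-- the place values `b_0 b_1 ⋯ b_(j-1)` -/
def place (b : ℕ → ℕ) (j : ℕ) : ℕ := ∏ i ∈ range j, b i

theorem place_succ (b : ℕ → ℕ) (j : ℕ) : place b (j + 1) = place b j * b j := prod_range_succ _ _

theorem place_pos {b : ℕ → ℕ} (hb : ∀ j, 2 ≤ b j) (j : ℕ) : 0 < place b j :=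
  prod_pos fun i _ => by have := hb i; omega

theorem place_dvd (b : ℕ → ℕ) {i j : ℕ} (h : i ≤ j) : place b i ∣ place b j :=
  prod_dvd_prod_of_subset _ _ _ (range_subset_range.2 h)

theorem lt_place {b : ℕ → ℕ} (hb : ∀ j, 2 ≤ b j) (j : ℕ) : j < place b j := by
  induction j with
  | zero => simp [place]
  | succ j ih =>
    rw [place_succ]
    have := hb j
    nlinarith [place_pos hb j]

theorem digit_add {b : ℕ → ℕ} (hb : ∀ j, 2 ≤ b j) {i j : ℕ} (h : i < j) (t q : ℕ) :
    (t + q * place b j) / place b i % b i = t / place b i % b i := by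
  obtain ⟨r, hr⟩ := place_dvd b (show i + 1 ≤ j by omega)
  rw [place_succ] at hr
  have h1 : t + q * place b j = t + place b i * (b i * (r * q)) := by
    rw [hr]
    ring
  rw [h1, Nat.add_mul_div_left _ _ (place_pos hb i), Nat.add_mul_mod_self_left]

open Classical in
/-- the integers below the place value `B_k` whose first `k` digits belong to the digit sets -/
noncomputable def low (b : ℕ → ℕ) (D : ℕ → Set ℕ) (k : ℕ) : Finset ℕ :=
  (range (place b k)).filter fun t => ∀ j < k, t / place b j % b j ∈ D j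

open Classical in
/-- the digits in the position `j` -/
noncomputable def dig (b : ℕ → ℕ) (D : ℕ → Set ℕ) (j : ℕ) : Finset ℕ :=
  (range (b j)).filter fun d => d ∈ D j

theorem mem_low {b : ℕ → ℕ} {D : ℕ → Set ℕ} {k t : ℕ} :
    t ∈ low b D k ↔ t < place b k ∧ ∀ j < k, t / place b j % b j ∈ D j := by
  classical
  simp only [low, mem_filter, mem_range]

theorem mem_dig {b : ℕ → ℕ} {D : ℕ → Set ℕ} {j d : ℕ} : d ∈ dig b D j ↔ d < b j ∧ d ∈ D j := by
  classical
  simp only [dig, mem_filter, mem_range]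

theorem mem_low_succ {b : ℕ → ℕ} (hb : ∀ j, 2 ≤ b j) {D : ℕ → Set ℕ} {k t d : ℕ} (ht : t < place b k) :
    t + d * place b k ∈ low b D (k + 1) ↔ t ∈ low b D k ∧ d ∈ dig b D k := by
  have hp := place_pos hb k
  have hdiv : (t + d * place b k) / place b k = d := by
    rw [Nat.add_mul_div_right _ _ hp, Nat.div_eq_of_lt ht, zero_add]
  rw [mem_low, mem_low, mem_dig]
  constructor
  · rintro ⟨h1, h2⟩
    have hd : d < b k := by
      rw [place_succ] at h1
      by_contra h
      push Not at h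
      have := Nat.mul_le_mul_right (place b k) h
      rw [mul_comm (b k)] at this
      omega
    refine ⟨⟨ht, fun j hj => ?_⟩, hd, ?_⟩
    · have := h2 j (by omega)
      rwa [digit_add hb hj] at this
    · have := h2 k (by omega)
      rwa [hdiv, Nat.mod_eq_of_lt hd] at this
  · rintro ⟨⟨-, h2⟩, hd, hd'⟩
    refine ⟨?_, fun j hj => ?_⟩
    · rw [place_succ, mul_comm (place b k)]
      calc t + d * place b k < place b k + d * place b k := by omega
        _ = (d + 1) * place b k := by ring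
        _ ≤ b k * place b k := Nat.mul_le_mul_right _ hd
    · rcases Nat.lt_or_ge j k with h | h
      · rw [digit_add hb h]
        exact h2 j h
      · have : j = k := by omega
        subst this
        rw [hdiv, Nat.mod_eq_of_lt hd]
        exact hd'

theorem sum_low_succ {b : ℕ → ℕ} (hb : ∀ j, 2 ≤ b j) (D : ℕ → Set ℕ) (θ : ℝ) (k : ℕ) :
    ∑ t ∈ low b D (k + 1), e (θ * t) =
      (∑ t ∈ low b D k, e (θ * t)) * ∑ d ∈ dig b D k, e (θ * (d * place b k : ℕ)) := by
  have hp := place_pos hb k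
  rw [sum_mul_sum, ← sum_product']
  symm
  refine sum_nbij' (fun p => p.1 + p.2 * place b k) (fun m => (m % place b k, m / place b k))
    ?_ ?_ ?_ ?_ ?_
  · rintro ⟨t, d⟩ h
    rw [mem_product] at h
    exact (mem_low_succ hb (mem_low.1 h.1).1).2 h
  · intro m hm
    rw [mem_product]
    refine (mem_low_succ hb (Nat.mod_lt _ hp)).1 ?_
    rwa [mul_comm, Nat.mod_add_div]
  · rintro ⟨t, d⟩ h
    rw [mem_product] at h
    have ht := (mem_low.1 h.1).1
    simp only
    rw [Nat.add_mul_mod_self_right, Nat.mod_eq_of_lt ht, Nat.add_mul_div_right _ _ hp,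
      Nat.div_eq_of_lt ht, zero_add]
  · intro m _
    simp only
    rw [mul_comm, Nat.mod_add_div]
  · rintro ⟨t, d⟩ _
    simp only
    rw [← e_add]
    congr 1
    push_cast
    ring

theorem card_low_succ {b : ℕ → ℕ} (hb : ∀ j, 2 ≤ b j) (D : ℕ → Set ℕ) (k : ℕ) :
    (low b D (k + 1)).card = (low b D k).card * (dig b D k).card := by
  have h := sum_low_succ hb D 0 k
  simp only [zero_mul, e_zero, sum_const, nsmul_eq_mul, mul_one] at h
  exact_mod_cast h

/-- two terms far from each other -/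
theorem norm_pair {x y δ : ℝ} (h0 : 0 < δ) (h : ∀ n : ℤ, δ ≤ |(y - x) - n|) :
    ‖e x + e y‖ ≤ 2 - 4 * δ ^ 2 := by
  set t := y - x with ht
  have e1 : e x + e y = e x * (1 + e t) := by
    have : y = x + t := by
      rw [ht]
      ring
    rw [this, e_add]
    ring
  rw [e1, norm_mul, norm_e, one_mul]
  set f := Int.fract t with hf
  have hf0 := Int.fract_nonneg t
  have hf1 := Int.fract_lt_one t
  have h1 : δ ≤ f := by
    have := h ⌊t⌋
    rw [← Int.self_sub_floor] at hf
    rwa [← hf, abs_of_nonneg hf0] at this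
  have h2 : f ≤ 1 - δ := by
    have := h (⌊t⌋ + 1)
    push_cast at this
    have h3 : t - ((⌊t⌋ : ℝ) + 1) = f - 1 := by
      rw [hf, ← Int.self_sub_floor]
      ring
    rw [h3, abs_of_nonpos (by linarith)] at this
    linarith
  have hs := sin_ge h0 h1 h2
  have e2 : e t = e f := by
    have : t = f + ⌊t⌋ := by
      rw [hf, Int.fract_add_floor]
    rw [this, e_add]
    have h4 : e (⌊t⌋ : ℝ) = 1 := by
      unfold Pool.Agent.H469R2.NK.e
      rw [Complex.exp_eq_one_iff]
      exact ⟨⌊t⌋, by push_cast; ring⟩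
    rw [h4, mul_one]
  have h5 : ‖1 + e t‖ ^ 2 ≤ 4 - 16 * δ ^ 2 := by
    rw [e2]
    have e3 : ∀ u v : ℝ, ‖1 + ((u : ℂ) + (v : ℂ) * Complex.I)‖ ^ 2 = (1 + u) * (1 + u) + v * v := by
      intro u v
      rw [Complex.sq_norm, Complex.normSq_apply]
      simp
    unfold Pool.Agent.H469R2.NK.e
    rw [Complex.exp_mul_I, ← Complex.ofReal_cos, ← Complex.ofReal_sin, e3,
      show 2 * Real.pi * f = 2 * (Real.pi * f) by ring, Real.cos_two_mul, Real.sin_two_mul]
    have h6 := Real.sin_sq_add_cos_sq (Real.pi * f)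
    set s := Real.sin (Real.pi * f)
    set c := Real.cos (Real.pi * f)
    have h7 : c ^ 2 = 1 - s ^ 2 := by linarith
    have h8 : (2 * δ) ^ 2 ≤ s ^ 2 := by
      apply pow_le_pow_left₀ (by linarith) hs
    have h9 : (1 + (2 * c ^ 2 - 1)) * (1 + (2 * c ^ 2 - 1)) + 2 * s * c * (2 * s * c) = 4 * c ^ 2 := by
      have : s ^ 2 = 1 - c ^ 2 := by linarith
      calc _ = 4 * c ^ 2 * (c ^ 2 + s ^ 2) := by ring
        _ = 4 * c ^ 2 := by rw [this]; ring
    rw [h9, h7]
    linarith
  have hδ2 : 4 * δ ^ 2 ≤ 2 := by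
    have : δ ≤ 1 / 2 := by linarith
    nlinarith
  exact (abs_le_of_sq_le_sq' (by nlinarith) (by linarith)).2

theorem norm_dig_le {b : ℕ → ℕ} {D : ℕ → Set ℕ} {θ δ : ℝ} (h0 : 0 < δ) {k d d' : ℕ}
    (hd : d ∈ dig b D k) (hd' : d' ∈ dig b D k) (hlt : d < d')
    (h : ∀ n : ℤ, δ ≤ |θ * ((d' - d : ℕ) : ℝ) * (place b k : ℝ) - n|) :
    ‖∑ d ∈ dig b D k, e (θ * (d * place b k : ℕ))‖ ≤ ((dig b D k).card : ℝ) - 4 * δ ^ 2 := by
  classical
  have h1 : d ∈ (dig b D k).erase d' := mem_erase.2 ⟨by omega, hd⟩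
  rw [← add_sum_erase _ _ hd', ← add_sum_erase _ _ h1, ← add_assoc]
  have h2 : ‖e (θ * (d' * place b k : ℕ)) + e (θ * (d * place b k : ℕ))‖ ≤ 2 - 4 * δ ^ 2 := by
    rw [add_comm]
    apply norm_pair h0
    intro n
    have e1 : θ * (d' * place b k : ℕ) - θ * (d * place b k : ℕ) =
        θ * ((d' - d : ℕ) : ℝ) * (place b k : ℝ) := by
      rw [Nat.cast_sub hlt.le]
      push_cast
      ring
    rw [e1]
    exact h n
  have h3 : ‖∑ x ∈ ((dig b D k).erase d').erase d, e (θ * (x * place b k : ℕ))‖ ≤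
      ((dig b D k).card : ℝ) - 2 := by
    refine (norm_sum_le _ _).trans ?_
    simp only [norm_e, sum_const, nsmul_eq_mul, mul_one]
    rw [card_erase_of_mem h1, card_erase_of_mem hd']
    have h4 : 1 < (dig b D k).card := one_lt_card.2 ⟨d, hd, d', hd', by omega⟩
    rw [Nat.cast_sub (by omega), Nat.cast_sub (by omega)]
    push_cast
    linarith
  refine (norm_add_le _ _).trans ?_
  linarith

/-- an irrational number is far from the integers at infinitely many positions -/
theorem exists_far {b : ℕ → ℕ} (hb : ∀ j, 2 ≤ b j) {β : ℕ} (hβ : ∀ j, b j ≤ β) {A : Set ℕ} {ℓ : ℕ}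
    (hA : ∀ j, ∃ i ∈ A, j ≤ i ∧ i < j + ℓ) {x : ℝ} (hx : Irrational x) (J : ℕ) :
    ∃ j ∈ A, J ≤ j ∧ ∀ n : ℤ, 1 / ((β : ℝ) ^ ℓ + 1) ≤ |x * place b j - n| := by
  by_contra hcon
  push Not at hcon
  have hβ2 : 2 ≤ β := (hb 0).trans (hβ 0)
  have hβR : (1 : ℝ) ≤ β := by
    have : 1 ≤ β := by omega
    exact_mod_cast this
  have hδ : 0 < 1 / ((β : ℝ) ^ ℓ + 1) := by positivity
  obtain ⟨i₀, hi₀, hJ, -⟩ := hA J
  obtain ⟨n₀, hn₀⟩ := hcon i₀ hi₀ hJ
  have hne : 0 < |x * place b i₀ - n₀| := by
    rw [abs_pos, sub_ne_zero]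
    intro h
    have h1 : Irrational (x * (place b i₀ : ℕ)) :=
      hx.mul_natCast (place_pos hb i₀).ne'
    exact h1.ne_int n₀ h
  have key : ∀ k : ℕ, ∃ j ∈ A, J ≤ j ∧ ∃ n : ℤ, |x * place b j - n| < 1 / ((β : ℝ) ^ ℓ + 1) ∧
      2 ^ k * |x * place b i₀ - n₀| ≤ |x * place b j - n| := by
    intro k
    induction k with
    | zero => exact ⟨i₀, hi₀, hJ, n₀, hn₀, by simp⟩
    | succ k ih =>
      obtain ⟨j, hj, hJj, n, h1, h2⟩ := ih
      obtain ⟨j', hj', h3, h4⟩ := hA (j + 1)
      obtain ⟨n', hn'⟩ := hcon j' hj' (by omega)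
      obtain ⟨c, hc⟩ := place_dvd b (show j ≤ j' by omega)
      have hcpos : 0 < c := by
        rcases Nat.eq_zero_or_pos c with h | h
        · rw [h, mul_zero] at hc
          exact absurd hc (place_pos hb j').ne'
        · exact h
      have hc2 : 2 ≤ c := by
        obtain ⟨r, hr⟩ := place_dvd b (show j + 1 ≤ j' by omega)
        rw [place_succ, mul_assoc] at hr
        have h5 : c = b j * r := Nat.eq_of_mul_eq_mul_left (place_pos hb j) (hc.symm.trans hr)
        have h6 := hb j
        have h7 : 1 ≤ r := by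
          rcases Nat.eq_zero_or_pos r with h | h
          · rw [h, mul_zero] at h5
            omega
          · exact h
        rw [h5]
        nlinarith
      have hcβ : c ≤ β ^ ℓ := by
        have h5 : ∀ u : ℕ, place b (j + u) ≤ place b j * β ^ u := by
          intro u
          induction u with
          | zero => simp
          | succ u ihu =>
            rw [← add_assoc, place_succ, pow_succ, ← mul_assoc]
            exact Nat.mul_le_mul ihu (hβ _)
        have h6 := h5 (j' - j)
        rw [show j + (j' - j) = j' by omega, hc] at h6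
        have h7 := Nat.le_of_mul_le_mul_left h6 (place_pos hb j)
        exact h7.trans (Nat.pow_le_pow_right (by omega) (by omega))
      have hcR : (c : ℝ) ≤ (β : ℝ) ^ ℓ := by exact_mod_cast hcβ
      have hc2R : (2 : ℝ) ≤ c := by exact_mod_cast hc2
      have hcast : (place b j' : ℝ) = place b j * c := by exact_mod_cast hc
      have h5 : c * (x * place b j - n) = x * place b j' - n' := by
        have h6 : |(c * (x * place b j - n)) - (x * place b j' - n')| < 1 := by
          refine (abs_sub _ _).trans_lt ?_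
          rw [abs_mul, abs_of_nonneg (by positivity : (0 : ℝ) ≤ c)]
          calc (c : ℝ) * |x * place b j - n| + |x * place b j' - n'|
              ≤ (β : ℝ) ^ ℓ * |x * place b j - n| + |x * place b j' - n'| := by gcongr
            _ < (β : ℝ) ^ ℓ * (1 / ((β : ℝ) ^ ℓ + 1)) + 1 / ((β : ℝ) ^ ℓ + 1) := by
                have : (0 : ℝ) < (β : ℝ) ^ ℓ := by positivity
                have h8 := mul_lt_mul_of_pos_left h1 this
                linarith
            _ = 1 := by field_simp
        have h7 : (c * (x * place b j - n)) - (x * place b j' - n') = ((n' - c * n : ℤ) : ℝ) := by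
          push_cast
          rw [hcast]
          ring
        rw [h7] at h6
        have h8 : |(n' - c * n : ℤ)| < 1 := by exact_mod_cast h6
        rw [Int.abs_lt_one_iff] at h8
        rw [h8, Int.cast_zero] at h7
        linarith
      refine ⟨j', hj', by omega, n', hn', ?_⟩
      rw [← h5, abs_mul, abs_of_nonneg (by positivity : (0 : ℝ) ≤ c), pow_succ]
      calc 2 ^ k * 2 * |x * place b i₀ - n₀| = 2 * (2 ^ k * |x * place b i₀ - n₀|) := by ring
        _ ≤ c * |x * place b j - n| := by gcongr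
  obtain ⟨k, hk⟩ := pow_unbounded_of_one_lt (1 / |x * place b i₀ - n₀|) (one_lt_two : (1 : ℝ) < 2)
  obtain ⟨j, -, -, n, h1, h2⟩ := key k
  rw [div_lt_iff₀ hne] at hk
  have h3 : 1 / ((β : ℝ) ^ ℓ + 1) ≤ 1 := by
    rw [div_le_one (by positivity)]
    have : (0 : ℝ) < (β : ℝ) ^ ℓ := by positivity
    linarith
  linarith

theorem card_dig_le (b : ℕ → ℕ) (D : ℕ → Set ℕ) (j : ℕ) : (dig b D j).card ≤ b j := by
  classical
  have : dig b D j ⊆ range (b j) := by
    unfold dig
    exact filter_subset _ _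
  simpa using card_le_card this

theorem mono_low {b : ℕ → ℕ} (hb : ∀ j, 2 ≤ b j) {D : ℕ → Set ℕ} {θ r : ℝ} {k k' : ℕ} (hk : k ≤ k')
    (h : ‖∑ t ∈ low b D k, e (θ * t)‖ ≤ r * (low b D k).card) :
    ‖∑ t ∈ low b D k', e (θ * t)‖ ≤ r * (low b D k').card := by
  induction k', hk using Nat.le_induction with
  | base => exact h
  | succ j _ ih =>
    rw [sum_low_succ hb, norm_mul, card_low_succ hb]
    have h1 : ‖∑ d ∈ dig b D j, e (θ * (d * place b j : ℕ))‖ ≤ (dig b D j).card := by
      refine (norm_sum_le _ _).trans ?_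
      simp only [norm_e, sum_const, nsmul_eq_mul, mul_one]
      exact le_rfl
    rw [Nat.cast_mul (low b D j).card, ← mul_assoc]
    exact mul_le_mul ih h1 (norm_nonneg _) ((norm_nonneg _).trans ih)

/-- the digit conditions -/
structure Sys (b : ℕ → ℕ) (D : ℕ → Set ℕ) (β ℓ : ℕ) : Prop where
  two : ∀ j, 2 ≤ b j
  le : ∀ j, b j ≤ β
  ne : ∀ j, ∃ d ∈ D j, d < b j
  gap : ∀ j, ∃ i, j ≤ i ∧ i < j + ℓ ∧ ∃ d ∈ D i, ∃ d' ∈ D i, d < d' ∧ d' < b i

theorem Sys.low_pos {b : ℕ → ℕ} {D : ℕ → Set ℕ} {β ℓ : ℕ} (h : Sys b D β ℓ) (k : ℕ) :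
    0 < (low b D k).card := by
  induction k with
  | zero =>
    rw [card_pos]
    refine ⟨0, mem_low.2 ⟨by simp [place], fun j hj => by omega⟩⟩
  | succ k ih =>
    rw [card_low_succ h.two]
    obtain ⟨d, hd, hlt⟩ := h.ne k
    exact Nat.mul_pos ih (card_pos.2 ⟨d, mem_dig.2 ⟨hlt, hd⟩⟩)

theorem Sys.exists_small {b : ℕ → ℕ} {D : ℕ → Set ℕ} {β ℓ : ℕ} (h : Sys b D β ℓ) {θ : ℝ}
    (hθ : Irrational θ) {ε : ℝ} (hε : 0 < ε) :
    ∃ k, ‖∑ t ∈ low b D k, e (θ * t)‖ ≤ ε * (low b D k).card := by
  have hb := h.two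
  have hβ2 : 2 ≤ β := (hb 0).trans (h.le 0)
  have hβ0 : (0 : ℝ) < β := by
    have : 0 < β := by omega
    exact_mod_cast this
  set L : ℕ := β.factorial with hL
  have hL0 : 0 < L := Nat.factorial_pos _
  have hLR : (1 : ℝ) ≤ L := by exact_mod_cast hL0
  set δ : ℝ := 1 / ((β : ℝ) ^ ℓ + 1) / L with hδ
  have hδ0 : 0 < δ := by positivity
  have hδ1 : δ ≤ 1 / 2 := by
    have h1 : (1 : ℝ) ≤ (β : ℝ) ^ ℓ := by
      apply one_le_pow₀
      have : 1 ≤ β := by omega
      exact_mod_cast this
    have h2 : 1 / ((β : ℝ) ^ ℓ + 1) ≤ 1 / 2 := by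
      apply one_div_le_one_div_of_le (by norm_num)
      linarith
    calc δ ≤ 1 / ((β : ℝ) ^ ℓ + 1) / 1 := by
          rw [hδ]
          gcongr
      _ ≤ 1 / 2 := by rw [div_one]; exact h2
  have hfar : ∀ J : ℕ, ∃ j, J ≤ j ∧ ∃ d ∈ dig b D j, ∃ d' ∈ dig b D j, d < d' ∧
      ∀ n : ℤ, δ ≤ |θ * ((d' - d : ℕ) : ℝ) * (place b j : ℝ) - n| := by
    intro J
    obtain ⟨j, ⟨d, hd, d', hd', hlt, hlt'⟩, hj, hf⟩ := exists_far hb h.le
      (A := {i | ∃ d ∈ D i, ∃ d' ∈ D i, d < d' ∧ d' < b i}) (ℓ := ℓ)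
      (fun j => by
        obtain ⟨i, h1, h2, h3⟩ := h.gap j
        exact ⟨i, h3, h1, h2⟩) (hθ.natCast_mul hL0.ne') J
    refine ⟨j, hj, d, mem_dig.2 ⟨by omega, hd⟩, d', mem_dig.2 ⟨hlt', hd'⟩, hlt, fun n => ?_⟩
    obtain ⟨r, hr⟩ : (d' - d) ∣ L := Nat.dvd_factorial (by omega) (by have := h.le j; omega)
    have hr0 : 0 < r := by
      rcases Nat.eq_zero_or_pos r with h0 | h0
      · rw [h0, mul_zero] at hr
        omega
      · exact h0
    have hrL : r ≤ L := by
      rw [hr]
      exact Nat.le_mul_of_pos_left _ (by omega)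
    have h1 := hf (r * n)
    have h2 : (L : ℝ) * θ * place b j - ((r * n : ℤ) : ℝ) =
        r * (θ * ((d' - d : ℕ) : ℝ) * (place b j : ℝ) - n) := by
      rw [hr]
      push_cast
      ring
    rw [h2, abs_mul, abs_of_nonneg (by positivity : (0 : ℝ) ≤ r)] at h1
    have h3 : (r : ℝ) ≤ L := by exact_mod_cast hrL
    rw [hδ, div_le_iff₀ (by positivity)]
    calc 1 / ((β : ℝ) ^ ℓ + 1) ≤ r * |θ * ((d' - d : ℕ) : ℝ) * (place b j : ℝ) - n| := h1
      _ ≤ L * |θ * ((d' - d : ℕ) : ℝ) * (place b j : ℝ) - n| := by gcongr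
      _ = _ := mul_comm _ _
  set ρ : ℝ := 1 - 4 * δ ^ 2 / β with hρ
  have h4 : 4 * δ ^ 2 ≤ 1 := by nlinarith
  have h5 : 4 * δ ^ 2 / β ≤ 1 := by
    rw [div_le_one hβ0]
    have : (2 : ℝ) ≤ β := by exact_mod_cast hβ2
    linarith
  have hρ0 : 0 ≤ ρ := by
    rw [hρ]
    linarith
  have hρ1 : ρ < 1 := by
    rw [hρ]
    have : 0 < 4 * δ ^ 2 / β := by positivity
    linarith
  have key : ∀ N : ℕ, ∃ k, ‖∑ t ∈ low b D k, e (θ * t)‖ ≤ ρ ^ N * (low b D k).card := by
    intro N
    induction N with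
    | zero =>
      refine ⟨0, (norm_sum_le _ _).trans ?_⟩
      simp only [norm_e, sum_const, nsmul_eq_mul, mul_one, pow_zero, one_mul]
      exact le_rfl
    | succ N ih =>
      obtain ⟨k, hk⟩ := ih
      obtain ⟨j, hj, d, hd, d', hd', hlt, hf⟩ := hfar k
      refine ⟨j + 1, ?_⟩
      have h6 := mono_low hb hj hk
      have h7 := norm_dig_le hδ0 hd hd' hlt hf
      have h8 : ((dig b D j).card : ℝ) - 4 * δ ^ 2 ≤ ρ * (dig b D j).card := by
        have h9 : ((dig b D j).card : ℝ) ≤ β := by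
          exact_mod_cast (card_dig_le b D j).trans (h.le j)
        have h10 : 4 * δ ^ 2 / β * (dig b D j).card ≤ 4 * δ ^ 2 / β * β := by gcongr
        rw [div_mul_cancel₀ _ hβ0.ne'] at h10
        rw [hρ]
        linarith
      rw [sum_low_succ hb, norm_mul, card_low_succ hb, pow_succ, Nat.cast_mul (low b D j).card]
      refine (mul_le_mul h6 (h7.trans h8) (norm_nonneg _) ((norm_nonneg _).trans h6)).trans ?_
      exact le_of_eq (by ring)
  obtain ⟨N, hN⟩ := exists_pow_lt_of_lt_one hε hρ1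
  obtain ⟨k, hk⟩ := key N
  refine ⟨k, hk.trans ?_⟩
  gcongr

/-! ## All integers up to a bound -/

/-- all the digits of `m` belong to the digit sets -/
def Digs (b : ℕ → ℕ) (D : ℕ → Set ℕ) (m : ℕ) : Prop :=
  1 ≤ m ∧ ∀ j, place b j ≤ m → m / place b j % b j ∈ D j

open Classical in
/-- the integers up to `X` with restricted digits -/
noncomputable def upTo (b : ℕ → ℕ) (D : ℕ → Set ℕ) (X : ℕ) : Finset ℕ :=
  (range (X + 1)).filter fun m => Digs b D m

theorem mem_upTo {b : ℕ → ℕ} {D : ℕ → Set ℕ} {X m : ℕ} :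
    m ∈ upTo b D X ↔ m ≤ X ∧ Digs b D m := by
  classical
  simp only [upTo, mem_filter, mem_range, Nat.lt_succ_iff]

theorem digs_iff {b : ℕ → ℕ} (hb : ∀ j, 2 ≤ b j) {D : ℕ → Set ℕ} {k t q : ℕ} (ht : t < place b k)
    (hq : 1 ≤ q) : Digs b D (t + q * place b k) ↔ t ∈ low b D k ∧
      ∀ j, k ≤ j → place b j ≤ q * place b k → q * place b k / place b j % b j ∈ D j := by
  have hp := place_pos hb k
  have hM : place b k ≤ q * place b k := Nat.le_mul_of_pos_left _ hq
  have hdiv : ∀ j, k ≤ j → (t + q * place b k) / place b j = q * place b k / place b j ∧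
      (place b j ≤ t + q * place b k ↔ place b j ≤ q * place b k) := by
    intro j hj
    obtain ⟨c, hc⟩ := place_dvd b hj
    rw [hc]
    constructor
    · rw [← Nat.div_div_eq_div_mul, ← Nat.div_div_eq_div_mul, Nat.add_mul_div_right _ _ hp,
        Nat.div_eq_of_lt ht, zero_add, Nat.mul_div_cancel _ hp]
    · constructor
      · intro h
        have h1 : place b k * c < place b k * (q + 1) := by
          calc place b k * c ≤ t + q * place b k := h
            _ < place b k + q * place b k := by omega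
            _ = place b k * (q + 1) := by ring
        have h2 := Nat.lt_of_mul_lt_mul_left h1
        calc place b k * c ≤ place b k * q := Nat.mul_le_mul_left _ (by omega)
          _ = q * place b k := mul_comm _ _
      · intro h
        omega
  unfold Digs
  rw [mem_low]
  constructor
  · rintro ⟨-, h⟩
    refine ⟨⟨ht, fun j hj => ?_⟩, fun j hj h1 => ?_⟩
    · have h2 := h j ((Nat.le_of_dvd hp (place_dvd b hj.le)).trans (hM.trans (by omega)))
      rwa [digit_add hb hj] at h2
    · have h2 := h j ((hdiv j hj).2.2 h1)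
      rwa [(hdiv j hj).1] at h2
  · rintro ⟨⟨-, h1⟩, h2⟩
    refine ⟨by omega, fun j hj => ?_⟩
    rcases Nat.lt_or_ge j k with h | h
    · rw [digit_add hb h]
      exact h1 j h
    · rw [(hdiv j h).1]
      exact h2 j h ((hdiv j h).2.1 hj)

theorem Sys.infinite {b : ℕ → ℕ} {D : ℕ → Set ℕ} {β ℓ : ℕ} (h : Sys b D β ℓ) :
    {m | Digs b D m}.Infinite := by
  rw [Set.infinite_iff_exists_gt]
  intro a
  obtain ⟨i, hi, -, d, -, d', hd', hlt, hlt'⟩ := h.gap (a + 1)
  obtain ⟨t, ht⟩ := card_pos.1 (h.low_pos i)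
  have ht' := (mem_low.1 ht).1
  have hp := place_pos h.two i
  have hM : place b i ≤ d' * place b i := Nat.le_mul_of_pos_left _ (by omega)
  refine ⟨t + d' * place b i, (digs_iff h.two ht' (by omega)).2 ⟨ht, fun j hj hle => ?_⟩, ?_⟩
  · rcases Nat.lt_or_ge i j with h1 | h1
    · exfalso
      have h2 := Nat.le_of_dvd (place_pos h.two j) (place_dvd b (show i + 1 ≤ j by omega))
      rw [place_succ, mul_comm] at h2
      have h3 : d' * place b i < b i * place b i := Nat.mul_lt_mul_of_pos_right hlt' hp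
      omega
    · have : j = i := by omega
      subst this
      rw [Nat.mul_div_cancel _ hp, Nat.mod_eq_of_lt hlt']
      exact hd'
  · have := lt_place h.two i
    omega

theorem Sys.card_large {b : ℕ → ℕ} {D : ℕ → Set ℕ} {β ℓ : ℕ} (h : Sys b D β ℓ) (R : ℕ) :
    ∀ᶠ X : ℕ in atTop, R ≤ (upTo b D X).card := by
  obtain ⟨F, hF, hc⟩ := h.infinite.exists_subset_card_eq R
  filter_upwards [eventually_ge_atTop (F.sup id)] with X hX
  rw [← hc]
  refine card_le_card fun m hm => mem_upTo.2 ⟨?_, hF hm⟩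
  exact (le_sup (f := id) hm).trans hX

/-- **exponential sums over the integers with restricted digits** -/
theorem Sys.small {b : ℕ → ℕ} {D : ℕ → Set ℕ} {β ℓ : ℕ} (h : Sys b D β ℓ) {θ : ℝ}
    (hθ : Irrational θ) {ε : ℝ} (hε : 0 < ε) :
    ∀ᶠ X : ℕ in atTop, ‖∑ m ∈ upTo b D X, e (θ * m)‖ ≤ ε * (upTo b D X).card := by
  classical
  have hb := h.two
  obtain ⟨k, hk⟩ := h.exists_small hθ (half_pos hε)
  set M := place b k with hM
  have hM0 : 0 < M := place_pos hb k
  obtain ⟨R, hR⟩ := exists_nat_ge (2 * M / (ε / 2))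
  filter_upwards [h.card_large R] with X hX
  have hfib : ∀ q ∈ range (X / M + 1), ‖∑ m ∈ (upTo b D X).filter (fun m => m / M = q), e (θ * m)‖ ≤
      ε / 2 * ((upTo b D X).filter (fun m => m / M = q)).card + (if q = 0 then (M : ℝ) else 0) +
        (if q = X / M then (M : ℝ) else 0) := by
    intro q hq
    rw [mem_range] at hq
    set F := (upTo b D X).filter (fun m => m / M = q) with hF
    have htriv : ‖∑ m ∈ F, e (θ * m)‖ ≤ M := by
      have h1 : F ⊆ Ico (q * M) (q * M + M) := by
        intro m hm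
        rw [hF, mem_filter] at hm
        rw [mem_Ico]
        have h2 := Nat.div_add_mod m M
        have h3 := Nat.mod_lt m hM0
        rw [hm.2, mul_comm] at h2
        omega
      have h2 := card_le_card h1
      rw [Nat.card_Ico, Nat.add_sub_cancel_left] at h2
      refine (norm_sum_le _ _).trans ?_
      simp only [norm_e, sum_const, nsmul_eq_mul, mul_one]
      exact_mod_cast h2
    have hpos : 0 ≤ ε / 2 * (F.card : ℝ) := by positivity
    have hMR : (0 : ℝ) ≤ M := Nat.cast_nonneg _
    by_cases h0 : q = 0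
    · rw [if_pos h0]
      have : 0 ≤ (if q = X / M then (M : ℝ) else 0) := by split_ifs <;> simp
      linarith
    · rw [if_neg h0]
      by_cases hX' : q = X / M
      · rw [if_pos hX']
        linarith
      · rw [if_neg hX', add_zero, add_zero]
        have hq1 : 1 ≤ q := by omega
        have hqX : q * M + M ≤ X := by
          have h2 : q + 1 ≤ X / M := by omega
          have h3 := (Nat.le_div_iff_mul_le hM0).1 h2
          calc q * M + M = (q + 1) * M := by ring
            _ ≤ X := h3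
        by_cases hV : ∀ j, k ≤ j → place b j ≤ q * M → q * M / place b j % b j ∈ D j
        · have h1 : F = (low b D k).image fun t => t + q * M := by
            ext m
            rw [hF, mem_filter, mem_upTo, mem_image]
            constructor
            · rintro ⟨⟨-, h2⟩, h3⟩
              have h4 : m = m % M + q * M := by
                have := Nat.div_add_mod m M
                rw [h3, mul_comm] at this
                omega
              rw [h4] at h2
              exact ⟨m % M, ((digs_iff hb (Nat.mod_lt _ hM0) hq1).1 h2).1, h4.symm⟩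
            · rintro ⟨t, ht, rfl⟩
              have ht' := (mem_low.1 ht).1
              refine ⟨⟨by omega, (digs_iff hb ht' hq1).2 ⟨ht, hV⟩⟩, ?_⟩
              rw [Nat.add_mul_div_right _ _ hM0, Nat.div_eq_of_lt ht', zero_add]
          have hinj : Set.InjOn (fun t => t + q * M) (low b D k : Set ℕ) := fun x _ y _ hxy => by
            simpa using hxy
          rw [h1, sum_image hinj, card_image_of_injOn hinj]
          have h2 : ∀ t : ℕ, e (θ * ((t + q * M : ℕ) : ℝ)) = e (θ * t) * e (θ * (q * M : ℕ)) := by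
            intro t
            rw [← e_add]
            congr 1
            push_cast
            ring
          simp only [h2]
          rw [← sum_mul, norm_mul, norm_e, mul_one]
          exact hk
        · have h1 : F = ∅ := by
            rw [eq_empty_iff_forall_notMem]
            intro m hm
            rw [hF, mem_filter, mem_upTo] at hm
            have h4 : m = m % M + q * M := by
              have := Nat.div_add_mod m M
              rw [hm.2, mul_comm] at this
              omega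
            have h2 := hm.1.2
            rw [h4] at h2
            exact hV ((digs_iff hb (Nat.mod_lt _ hM0) hq1).1 h2).2
          rw [h1]
          simp
  have hmaps : ∀ m ∈ upTo b D X, m / M ∈ range (X / M + 1) := by
    intro m hm
    rw [mem_range, Nat.lt_succ_iff]
    exact Nat.div_le_div_right (mem_upTo.1 hm).1
  rw [← sum_fiberwise_of_maps_to hmaps]
  have hcard : ((upTo b D X).card : ℝ) =
      ∑ q ∈ range (X / M + 1), (((upTo b D X).filter (fun m => m / M = q)).card : ℝ) := by
    rw [card_eq_sum_card_fiberwise hmaps]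
    push_cast
    rfl
  refine (norm_sum_le _ _).trans ((sum_le_sum hfib).trans ?_)
  rw [sum_add_distrib, sum_add_distrib, ← mul_sum, ← hcard, sum_ite_eq', sum_ite_eq']
  rw [if_pos (by simp), if_pos (by simp)]
  have h1 : (R : ℝ) ≤ (upTo b D X).card := by exact_mod_cast hX
  have h2 := hR.trans h1
  rw [div_le_iff₀ (by positivity)] at h2
  linarith

end Pool.Agent.T9h85.SG
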